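import Mathlib

namespace Pool.Agent.Results.MP_3790b3_al.FinitePropagation

/-- A self-similar action `(G, X)`: a faithful action of `G` on the finite words over `X` with
restriction maps `res g w = g|_w`. -/
structure SelfSimilar (G X : Type) [Group G] where
  act : G → List X → List X
  res : G → List X → G
  act_one : ∀ w, act 1 w = w
  act_mul : ∀ g h w, act (g * h) w = act g (act h w)
  faithful : ∀ g, (∀ w, act g w = w) → g = 1
  act_nil : ∀ g, act g [] = []
  res_nil : ∀ g, res g [] = g
  act_append : ∀ g u v, act g (u ++ v) = act g u ++ act (res g u) v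
  res_append : ∀ g u v, res g (u ++ v) = res (res g u) v
  res_mul : ∀ g h u, res (g * h) u = res g (act h u) * res h u

/-- The action is finite state: `{g|_w : w}` is finite for every `g`. -/
def FiniteState {G X : Type} [Group G] (S : SelfSimilar G X) : Prop :=
  ∀ g, {k | ∃ w, k = S.res g w}.Finite

/-- The Zappa-Szep product has finite propagation: for all `g, h` there is a family
`(x_w)_{w}` in `G` with `x_∅ = 1` such that `{x_{g(w)}⁻¹ g|_w x_w : w}` and
`{x_{h(w)}⁻¹ h|_w x_w : w}` are finite. -/
def FinProp {G X : Type} [Group G] (S : SelfSimilar G X) : Prop :=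
  ∀ g h : G, ∃ x : List X → G, x [] = 1 ∧
    {k | ∃ w, k = (x (S.act g w))⁻¹ * S.res g w * x w}.Finite ∧
    {k | ∃ w, k = (x (S.act h w))⁻¹ * S.res h w * x w}.Finite

/-! ### Self-similar actions from one-letter data -/

/-- one-letter data of a self-similar action -/
structure Letter (G X : Type) [Group G] where
  a : G → X → X
  r : G → X → G
  a_one : ∀ x, a 1 x = x
  a_mul : ∀ g h x, a (g * h) x = a g (a h x)
  r_mul : ∀ g h x, r (g * h) x = r g (a h x) * r h x

namespace Letter

variable {G X : Type} [Group G] (L : Letter G X)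

/-- the action on words -/
def act : G → List X → List X
  | _, [] => []
  | g, x :: w => L.a g x :: act (L.r g x) w

/-- the restrictions -/
def res : G → List X → G
  | g, [] => g
  | g, x :: w => res (L.r g x) w

theorem r_one (x : X) : L.r 1 x = 1 := by
  have h := L.r_mul 1 1 x
  rw [mul_one, L.a_one] at h
  exact (mul_eq_left.mp h.symm)

theorem act_one (w : List X) : L.act 1 w = w := by
  induction w with
  | nil => rfl
  | cons x w ih => rw [act, L.a_one, L.r_one, ih]

theorem act_mul (g h : G) (w : List X) : L.act (g * h) w = L.act g (L.act h w) := by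
  induction w generalizing g h with
  | nil => rfl
  | cons x w ih => rw [act, L.a_mul, L.r_mul, ih]; rfl

theorem act_append (g : G) (u v : List X) :
    L.act g (u ++ v) = L.act g u ++ L.act (L.res g u) v := by
  induction u generalizing g with
  | nil => rfl
  | cons x u ih => rw [List.cons_append, act, ih]; rfl

theorem res_append (g : G) (u v : List X) : L.res g (u ++ v) = L.res (L.res g u) v := by
  induction u generalizing g with
  | nil => rfl
  | cons x u ih => rw [List.cons_append, res, ih]; rfl

theorem res_mul (g h : G) (u : List X) :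
    L.res (g * h) u = L.res g (L.act h u) * L.res h u := by
  induction u generalizing g h with
  | nil => rfl
  | cons x u ih => rw [res, L.r_mul, ih]; rfl

/-- the self-similar action -/
def toSS (hf : ∀ g, (∀ w, L.act g w = w) → g = 1) : SelfSimilar G X where
  act := L.act
  res := L.res
  act_one := L.act_one
  act_mul := L.act_mul
  faithful := hf
  act_nil _ := rfl
  res_nil _ := rfl
  act_append := L.act_append
  res_append := L.res_append
  res_mul := L.res_mul

end Letter

/-! ### The affine group of `ℤ` -/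

/-- the maps `x ↦ e x + n` of `ℤ`, `e = ±1` -/
@[ext] structure D where
  e : ℤˣ
  n : ℤ

instance : Mul D := ⟨fun g h => ⟨g.e * h.e, (g.e : ℤ) * h.n + g.n⟩⟩
instance : One D := ⟨⟨1, 0⟩⟩
instance : Inv D := ⟨fun g => ⟨g.e⁻¹, -((g.e⁻¹ : ℤˣ) : ℤ) * g.n⟩⟩

theorem mul_e (g h : D) : (g * h).e = g.e * h.e := rfl
theorem mul_n (g h : D) : (g * h).n = (g.e : ℤ) * h.n + g.n := rfl
theorem one_e : (1 : D).e = 1 := rfl
theorem one_n : (1 : D).n = 0 := rfl
theorem inv_e (g : D) : (g⁻¹).e = g.e⁻¹ := rfl
theorem inv_n (g : D) : (g⁻¹).n = -((g.e⁻¹ : ℤˣ) : ℤ) * g.n := rfl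

instance : Group D :=
  Group.ofLeftAxioms
    (fun a b c => by
      ext
      · simp only [mul_e, mul_assoc]
      · simp only [mul_e, mul_n, Units.val_mul]; ring)
    (fun a => by
      ext
      · simp only [mul_e, one_e, one_mul]
      · simp only [mul_n, one_e, one_n, Units.val_one]; ring)
    (fun a => by
      ext
      · simp only [mul_e, inv_e, one_e, inv_mul_cancel]
      · simp only [mul_n, inv_e, inv_n, one_n]; ring)

/-- the value of a binary digit -/
def dv : Bool → ℤ
  | false => 0
  | true => 1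

/-- the digit of an integer -/
def dig (m : ℤ) : Bool := decide (m % 2 = 1)

theorem dv_dig (m : ℤ) : dv (dig m) = m % 2 := by
  unfold dig
  rcases Int.emod_two_eq_zero_or_one m with h | h <;> simp [h, dv]

theorem dig_dv (b : Bool) : dig (dv b) = b := by cases b <;> rfl

theorem dig_add (m k : ℤ) : dig (m + 2 * k) = dig m := by
  unfold dig
  rw [Int.add_mul_emod_self_left]

theorem split (m : ℤ) : m = dv (dig m) + 2 * (m / 2) := by
  rw [dv_dig]
  omega

theorem div_add (b : Bool) (k : ℤ) : (dv b + 2 * k) / 2 = k := by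
  cases b <;> simp only [dv] <;> omega

/-- the binary letters -/
def Y : Letter D Bool where
  a g b := dig ((g.e : ℤ) * dv b + g.n)
  r g b := ⟨g.e, ((g.e : ℤ) * dv b + g.n) / 2⟩
  a_one x := by simp [one_e, one_n, dig_dv]
  a_mul g h x := by
    have h1 := split ((h.e : ℤ) * dv x + h.n)
    have h2 : ((g * h).e : ℤ) * dv x + (g * h).n =
        ((g.e : ℤ) * dv (dig ((h.e : ℤ) * dv x + h.n)) + g.n) +
          2 * ((g.e : ℤ) * (((h.e : ℤ) * dv x + h.n) / 2)) := by
      have h3 : ((g * h).e : ℤ) * dv x + (g * h).n =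
          (g.e : ℤ) * ((h.e : ℤ) * dv x + h.n) + g.n := by
        simp only [mul_e, mul_n, Units.val_mul]; ring
      rw [h3]
      nth_rewrite 1 [h1]
      ring
    simp only [h2, dig_add]
  r_mul g h x := by
    have h1 := split ((h.e : ℤ) * dv x + h.n)
    have h4 := split ((g.e : ℤ) * dv (dig ((h.e : ℤ) * dv x + h.n)) + g.n)
    have h2 : ((g * h).e : ℤ) * dv x + (g * h).n =
        dv (dig ((g.e : ℤ) * dv (dig ((h.e : ℤ) * dv x + h.n)) + g.n)) +
          2 * ((g.e : ℤ) * (((h.e : ℤ) * dv x + h.n) / 2) +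
            ((g.e : ℤ) * dv (dig ((h.e : ℤ) * dv x + h.n)) + g.n) / 2) := by
      have h3 : ((g * h).e : ℤ) * dv x + (g * h).n =
          (g.e : ℤ) * ((h.e : ℤ) * dv x + h.n) + g.n := by
        simp only [mul_e, mul_n, Units.val_mul]; ring
      rw [h3]
      nth_rewrite 1 [h1]
      linear_combination h4
    ext
    · rfl
    · change ((((g * h).e : ℤ) * dv x + (g * h).n)) / 2 = _
      rw [h2, div_add]
      rfl

theorem Y_faithful (N : ℕ) : ∀ g : D, g.n.natAbs ≤ N → (∀ w, Y.act g w = w) → g = 1 := by
  induction N using Nat.strong_induction_on with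
  | _ N ih =>
    intro g hN hg
    have hlet : ∀ b w, Y.a g b = b ∧ Y.act (Y.r g b) w = w := by
      intro b w
      have h := hg (b :: w)
      rw [Letter.act] at h
      exact List.cons_eq_cons.mp h
    have h0 : dig g.n = false := by
      have h := (hlet false []).1
      change dig ((g.e : ℤ) * 0 + g.n) = false at h
      rwa [mul_zero, zero_add] at h
    have h0' : g.n % 2 = 0 := by rw [← dv_dig, h0]; rfl
    rcases Int.units_eq_one_or g.e with he | he
    · by_cases hn : g.n = 0
      · ext1
        · exact he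
        · exact hn
      · have hr : Y.r g false = ⟨1, g.n / 2⟩ := by
          change (⟨g.e, ((g.e : ℤ) * 0 + g.n) / 2⟩ : D) = _
          rw [he, mul_zero, zero_add]
        have h1 := ih (g.n / 2).natAbs (by omega) ⟨1, g.n / 2⟩ le_rfl (fun w => by
          rw [← hr]; exact (hlet false w).2)
        have h2 := congrArg D.n h1
        simp only [one_n] at h2
        omega
    · exfalso
      have hr0 : Y.r g false = ⟨-1, g.n / 2⟩ := by
        change (⟨g.e, ((g.e : ℤ) * 0 + g.n) / 2⟩ : D) = _
        rw [he, mul_zero, zero_add]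
      have hr1 : Y.r g true = ⟨-1, (-1 + g.n) / 2⟩ := by
        change (⟨g.e, ((g.e : ℤ) * 1 + g.n) / 2⟩ : D) = _
        rw [he]
        simp
      have h1 : (g.n / 2) % 2 = 0 := by
        have h := (hlet false [false]).2
        rw [hr0] at h
        have h' : dig (((-1 : ℤˣ) : ℤ) * 0 + g.n / 2) = false := (List.cons_eq_cons.mp h).1
        rw [mul_zero, zero_add] at h'
        rw [← dv_dig, h']; rfl
      have h2 : ((-1 + g.n) / 2) % 2 = 0 := by
        have h := (hlet true [false]).2
        rw [hr1] at h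
        have h' : dig (((-1 : ℤˣ) : ℤ) * 0 + (-1 + g.n) / 2) = false :=
          (List.cons_eq_cons.mp h).1
        rw [mul_zero, zero_add] at h'
        rw [← dv_dig, h']; rfl
      omega

theorem Y_res (g : D) (w : List Bool) (M : ℤ) (hM : 2 ≤ M) (hg : |g.n| ≤ M) :
    (Y.res g w).e = g.e ∧ |(Y.res g w).n| ≤ M := by
  induction w generalizing g with
  | nil => exact ⟨rfl, hg⟩
  | cons x w ih =>
    have h1 : |(Y.r g x).n| ≤ M := by
      change |((g.e : ℤ) * dv x + g.n) / 2| ≤ M
      rw [abs_le] at hg ⊢
      have h3 : (g.e : ℤ) * dv x = 0 ∨ (g.e : ℤ) * dv x = 1 ∨ (g.e : ℤ) * dv x = -1 := by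
        rcases Int.units_eq_one_or g.e with he | he <;> cases x <;> simp [he, dv]
      rcases h3 with h3 | h3 | h3 <;> rw [h3] <;> constructor <;> omega
    have h2 := ih (Y.r g x) h1
    exact ⟨h2.1, h2.2⟩

/-- the translation `x ↦ x + 1` -/
def c : D := ⟨1, 1⟩

/-- the letters `0, 1` and a new letter `t` (`none`) with `g(t) = t` and `g|_t = c g c⁻¹` -/
def Z : Letter D (Option Bool) where
  a g
    | none => none
    | some b => some (Y.a g b)
  r g
    | none => c * g * c⁻¹
    | some b => Y.r g b
  a_one x := by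
    cases x with
    | none => rfl
    | some b => simp only [Y.a_one]
  a_mul g h x := by
    cases x with
    | none => rfl
    | some b => simp only [Y.a_mul]
  r_mul g h x := by
    cases x with
    | none => simp only [mul_assoc, inv_mul_cancel_left]
    | some b => simp only [Y.r_mul]

theorem Z_act_some (g : D) (w : List Bool) : Z.act g (w.map some) = (Y.act g w).map some := by
  induction w generalizing g with
  | nil => rfl
  | cons x w ih =>
    rw [List.map_cons, Letter.act, Letter.act, List.map_cons]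
    congr 1
    exact ih _

/-- the self-similar action -/
def S : SelfSimilar D (Option Bool) := Z.toSS (fun g hg => by
  refine Y_faithful g.n.natAbs g le_rfl fun w => ?_
  have h := hg (w.map some)
  rw [Z_act_some] at h
  exact (List.map_injective_iff.mpr (Option.some_injective Bool)) h)

/-- the family `(x_w)`, started at `x`, read from the first letter of the word -/
def fam : D → List (Option Bool) → D
  | x, [] => x
  | x, none :: w => fam (c * x) w
  | x, some b :: w => fam (Y.r x (Y.a x⁻¹ b)) w

theorem a_inv (x : D) (b : Bool) : Y.a x (Y.a x⁻¹ b) = b := by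
  rw [← Y.a_mul, mul_inv_cancel, Y.a_one]

theorem a_inv' (x : D) (b : Bool) : Y.a x⁻¹ (Y.a x b) = b := by
  rw [← Y.a_mul, inv_mul_cancel, Y.a_one]

/-- If `g = x' s x⁻¹` then `g|_w = x'_{g(w)} s' x_w⁻¹` with a restriction `s'` of `s` with respect to
the binary letters. -/
theorem fam_spec (w : List (Option Bool)) : ∀ g s x x' : D, g = x' * s * x⁻¹ →
    ∃ v : List Bool, (fam x' (Z.act g w))⁻¹ * Z.res g w * fam x w = Y.res s v := by
  induction w with
  | nil =>
    intro g s x x' h
    refine ⟨[], ?_⟩
    change x'⁻¹ * g * x = s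
    rw [h]
    group
  | cons y w ih =>
    intro g s x x' h
    cases y with
    | none =>
      obtain ⟨v, hv⟩ := ih (c * g * c⁻¹) s (c * x) (c * x') (by rw [h]; group)
      exact ⟨v, hv⟩
    | some b =>
      have h1 : Y.r g b = Y.r x' (Y.a x'⁻¹ (Y.a g b)) * Y.r s (Y.a x⁻¹ b) *
          (Y.r x (Y.a x⁻¹ b))⁻¹ := by
        have h2 : Y.a x'⁻¹ (Y.a g b) = Y.a s (Y.a x⁻¹ b) := by
          rw [h, Y.a_mul, Y.a_mul, a_inv']
        have h3 : Y.r x⁻¹ b = (Y.r x (Y.a x⁻¹ b))⁻¹ := by
          rw [eq_inv_iff_mul_eq_one]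
          have h4 := Y.r_mul x⁻¹ x (Y.a x⁻¹ b)
          rw [inv_mul_cancel, Y.r_one, a_inv] at h4
          exact h4.symm
        rw [h2, ← h3, ← Y.r_mul]
        rw [h, Y.r_mul]
      obtain ⟨v, hv⟩ := ih (Y.r g b) (Y.r s (Y.a x⁻¹ b)) (Y.r x (Y.a x⁻¹ b))
        (Y.r x' (Y.a x'⁻¹ (Y.a g b))) h1
      exact ⟨Y.a x⁻¹ b :: v, hv⟩

theorem finite_states (g : D) : {k | ∃ w, k = Y.res g w}.Finite := by
  have h1 : Set.Finite ((fun p : ℤˣ × ℤ => (⟨p.1, p.2⟩ : D)) ''
      ((Set.univ : Set ℤˣ) ×ˢ Set.Icc (-(|g.n| + 2)) (|g.n| + 2))) :=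
    (Set.finite_univ.prod (Set.finite_Icc _ _)).image _
  refine h1.subset ?_
  rintro k ⟨w, rfl⟩
  obtain ⟨-, h3⟩ := Y_res g w (|g.n| + 2) (by linarith [abs_nonneg g.n]) (by linarith)
  exact ⟨((Y.res g w).e, (Y.res g w).n), ⟨Set.mem_univ _, (abs_le.mp h3).1, (abs_le.mp h3).2⟩, rfl⟩

theorem res_replicate (g : D) (k : ℕ) : Z.res g (List.replicate k none) = c ^ k * g * (c ^ k)⁻¹ := by
  induction k generalizing g with
  | zero => simp [Letter.res]
  | succ k ih =>
    rw [List.replicate_succ, Letter.res, ih]
    change c ^ k * (c * g * c⁻¹) * (c ^ k)⁻¹ = _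
    rw [pow_succ]
    group

theorem c_pow (k : ℕ) : c ^ k = ⟨1, k⟩ := by
  induction k with
  | zero => rfl
  | succ k ih =>
    rw [pow_succ, ih]
    ext
    · rfl
    · rw [mul_n]
      simp [c, add_comm]

/-- There is a self-similar action `(G, X)` (with `G` the infinite dihedral group of the maps
`x ↦ ± x + n` of `ℤ` and three letters) which is not finite state, but whose Zappa-Szep product has
finite propagation; even one family `(x_w)` with `x_∅ = 1` works for all elements of `G`. -/
theorem result : ∃ S : SelfSimilar D (Option Bool), ¬ FiniteState S ∧ FinProp S ∧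
    ∃ x : List (Option Bool) → D, x [] = 1 ∧
      ∀ g : D, {k | ∃ w, k = (x (S.act g w))⁻¹ * S.res g w * x w}.Finite := by
  have main : ∃ x : List (Option Bool) → D, x [] = 1 ∧
      ∀ g : D, {k | ∃ w, k = (x (S.act g w))⁻¹ * S.res g w * x w}.Finite := by
    refine ⟨fam 1, rfl, fun g => (finite_states g).subset ?_⟩
    rintro k ⟨w, rfl⟩
    exact fam_spec w g g 1 1 (by group)
  refine ⟨S, ?_, ?_, main⟩
  · intro h
    have h1 := h ⟨-1, 0⟩
    have h2 : Set.Infinite {k | ∃ w, k = S.res ⟨-1, 0⟩ w} := by
      refine Set.infinite_of_injective_forall_mem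
        (f := fun k : ℕ => S.res ⟨-1, 0⟩ (List.replicate k none)) ?_ ?_
      · intro j k hjk
        have h3 : c ^ j * (⟨-1, 0⟩ : D) * (c ^ j)⁻¹ = c ^ k * ⟨-1, 0⟩ * (c ^ k)⁻¹ := by
          rw [← res_replicate, ← res_replicate]
          exact hjk
        rw [c_pow, c_pow] at h3
        have h4 := congrArg D.n h3
        simp only [mul_n, inv_n, mul_e, inv_one, Units.val_one, Units.val_neg, Units.val_mul] at h4
        have h5 : (j : ℤ) = k := by linarith
        exact_mod_cast h5
      · intro k
        exact ⟨_, rfl⟩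
    exact h2 h1
  · intro g h
    obtain ⟨x, hx, hx'⟩ := main
    exact ⟨x, hx, hx' g, hx' h⟩

end Pool.Agent.Results.MP_3790b3_al.FinitePropagation
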